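import Pool.Agent.R867.Cub.Conv

set_option autoImplicit false

/-!
Rational curves through the rational points of smooth cubic surfaces over finite fields.

The argument is elementary.  The section of `X` by the tangent plane at `x` is a plane cubic
singular at `x`.  If it contains a `K`-line through `x` or has an irreducible component of
degree at least two through `x`, that component is a rational curve over `K`.  In the remaining
cases it consists of conjugate lines through `x` (and possibly a `K`-line not through `x`).
There one takes a suitable line through `x` over `K` meeting `X` in two more points, not on the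
lines of an Eckardt point, and moves along the tangent plane sections of those points, which are
rational curves over `K` or a conjugate pair over the quadratic extension; third points of
secants of conjugate points then give a rational curve over `K` which passes through `x`.
All fields, the fields with two, three and four elements included, are covered.
-/

namespace Pool.Agent.Results.MP_4f7796_ag.CurvesThroughPoints

open MvPolynomial

universe u

variable {K : Type u} [Field K]

/-- `G` is a cubic form in four variables over `K` and the surface `G = 0` in projective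
three-space is smooth: at no nonzero zero of `G` over the algebraic closure do all the
derivatives vanish. -/
def IsSmoothCubic (G : MvPolynomial (Fin 4) K) : Prop :=
  G.IsHomogeneous 3 ∧
    ∀ v : Fin 4 → AlgebraicClosure K, v ≠ 0 → aeval v G = 0 → ∃ i, aeval v (pderiv i G) ≠ 0

/-- A nonconstant morphism over `K` from the projective line to the surface `G = 0`: four
binary forms of the same degree over `K`, without a common zero on the projective line over the
algebraic closure, which satisfy `G = 0` identically, and which take two different values
(as points of projective space) on the projective line over the algebraic closure. -/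
structure RationalCurve (G : MvPolynomial (Fin 4) K) where
  /-- the degree -/
  degree : ℕ
  /-- the forms -/
  form : Fin 4 → MvPolynomial (Fin 2) K
  isHomogeneous : ∀ i, (form i).IsHomogeneous degree
  no_common_zero : ∀ p : Fin 2 → AlgebraicClosure K, p ≠ 0 → ∃ i, aeval p (form i) ≠ 0
  lies_on : aeval form G = 0
  nonconstant : ∃ p p' : Fin 2 → AlgebraicClosure K, p ≠ 0 ∧ p' ≠ 0 ∧
    ¬ ∃ κ : AlgebraicClosure K, ∀ i, aeval p' (form i) = κ * aeval p (form i)

/-- The image of the morphism contains the point with homogeneous coordinates `x`. -/
def RationalCurve.Contains {G : MvPolynomial (Fin 4) K} (C : RationalCurve G)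
    (x : Fin 4 → K) : Prop :=
  ∃ p : Fin 2 → AlgebraicClosure K, p ≠ 0 ∧ ∃ κ : AlgebraicClosure K, κ ≠ 0 ∧
    ∀ i, aeval p (C.form i) = κ * algebraMap K (AlgebraicClosure K) (x i)

open Pool.Agent.R867.Cub in
theorem result
    (K : Type u) [Field K] [Finite K] (G : MvPolynomial (Fin 4) K) (hG : IsSmoothCubic G)
    (x : Fin 4 → K) (hx : x ≠ 0) (hxG : eval x G = 0) :
    ∃ C : RationalCurve G, C.Contains x := by
  obtain ⟨hG3, hsm⟩ := hG
  obtain ⟨c, hc⟩ := exists_tensor G hG3
  have hsmc : Smooth c := by
    intro v hv hF
    obtain ⟨i, hi⟩ := hsm v hv (by rw [hc, aeval_F]; exact hF)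
    refine ⟨Pi.single i 1, ?_⟩
    rw [hc, aeval_pderiv_F] at hi
    exact hi
  have hFx : F c x = 0 := by
    rw [← aeval_F, ← hc, ← hxG]
    rfl
  obtain ⟨f, hf, ⟨a, κ, hκ, ha⟩, ⟨b, hb⟩⟩ := good_all hsmc hx hFx
  have hf0 : f ≠ 0 := by
    rintro rfl
    exact hb 0 (by funext i; simp)
  obtain ⟨d, g, w, hd, hg, hw⟩ := exists_primitive f hf0
  have hgF : F c g = 0 := by
    have h1 : f = d • g := by
      funext i
      rw [hg i]; rfl
    rw [h1, F_smul] at hf
    exact (mul_eq_zero.mp hf).resolve_left (pow_ne_zero _ hd)
  obtain ⟨n, h, h1, h2, h3, h4⟩ := exists_forms G hG3 g w hw (by rw [hc, aeval_F]; exact hgF)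
  have hai : ∀ i, Polynomial.aeval a d * Polynomial.aeval a (g i) =
      κ * algebraMap K (AlgebraicClosure K) (x i) := by
    intro i
    have := congrFun ha i
    simp only [mp_apply, Pi.smul_apply, up_apply, smul_eq_mul, hg i, map_mul] at this
    exact this
  have hda : Polynomial.aeval a d ≠ 0 := by
    intro hd0
    apply hx
    funext i
    have := hai i
    rw [hd0, zero_mul] at this
    have h5 := (mul_eq_zero.mp this.symm).resolve_left hκ
    simpa using h5
  have hga : ∀ i, aeval ![a, 1] (h i) =
      (κ / Polynomial.aeval a d) * algebraMap K (AlgebraicClosure K) (x i) := by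
    intro i
    rw [h4]
    have := hai i
    field_simp
    linear_combination this
  have hne1 : ∀ z : AlgebraicClosure K, (![z, 1] : Fin 2 → AlgebraicClosure K) ≠ 0 := by
    intro z hz
    have := congrFun hz 1
    simp at this
  refine ⟨⟨n, h, h1, h2, h3, ⟨![a, 1], ![b, 1], hne1 a, hne1 b, ?_⟩⟩,
    ⟨![a, 1], hne1 a, κ / Polynomial.aeval a d, div_ne_zero hκ hda, hga⟩⟩
  rintro ⟨l, hl⟩
  apply hb (Polynomial.aeval b d * (l * (κ / Polynomial.aeval a d)))
  funext i
  have h6 := hl i
  rw [hga i, h4] at h6
  simp only [mp_apply, Pi.smul_apply, up_apply, smul_eq_mul, hg i, map_mul, h6]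
  ring

end Pool.Agent.Results.MP_4f7796_ag.CurvesThroughPoints
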